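import Pool.Agent.H223R3.Kalai.Main
import Mathlib.Combinatorics.SetFamily.Shadow

/-! Kalai's bound for tight trees with the shadow of the host hypergraph in place of `C(n, r-1)`.
The averaging argument of `Pool.Agent.H223R3.Kalai.Basic` is run over the ordered `d`-sets which
lie in the shadow of `H`. -/

set_option autoImplicit false

namespace Pool.Agent.Y825.KS

open Finset ES903 H223R3.Kalai

open scoped FinsetFamily

section ineq

variable {V : Type*} [DecidableEq V] [Fintype V] {d : ℕ}

open Classical in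
/-- the ordered `d`-sets in the shadow of `H` -/
noncomputable def Sh (H : Finset (Finset V)) (d : ℕ) : Finset (Fin d → V) :=
  (inj V d).filter (fun u => (Nb H u).Nonempty)

theorem mem_Sh (H : Finset (Finset V)) (u : Fin d → V) :
    u ∈ Sh H d ↔ Function.Injective u ∧ (Nb H u).Nonempty := by
  simp [Sh, mem_inj]

theorem swap (H : Finset (Finset V)) (hH : ∀ h ∈ H, h.card = d + 1) (i : Fin d)
    (F : (Fin d → V) → V → ℚ) :
    ∑ u ∈ Sh H d, ∑ w ∈ Nb H u, F (Function.update u i w) (u i) =
      ∑ u ∈ Sh H d, ∑ w ∈ Nb H u, F u w := by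
  rw [Finset.sum_sigma', Finset.sum_sigma']
  refine Finset.sum_nbij' (fun x => ⟨Function.update x.1 i x.2, x.1 i⟩)
    (fun x => ⟨Function.update x.1 i x.2, x.1 i⟩) ?_ ?_ ?_ ?_ ?_
  · rintro ⟨u, w⟩ hx
    simp only [Finset.mem_sigma, mem_Sh, Nb, Finset.mem_filter, Finset.mem_univ,
      true_and] at hx ⊢
    have h1 : insert (u i) (univ.image (Function.update u i w)) ∈ H := by
      rw [insert_update]; exact hx.2
    refine ⟨⟨update_inj u hx.1.1 i w (not_mem_image H hH u w hx.2), ⟨u i, ?_⟩⟩, h1⟩
    rw [Finset.mem_filter]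
    exact ⟨Finset.mem_univ _, h1⟩
  · rintro ⟨u, w⟩ hx
    simp only [Finset.mem_sigma, mem_Sh, Nb, Finset.mem_filter, Finset.mem_univ,
      true_and] at hx ⊢
    have h1 : insert (u i) (univ.image (Function.update u i w)) ∈ H := by
      rw [insert_update]; exact hx.2
    refine ⟨⟨update_inj u hx.1.1 i w (not_mem_image H hH u w hx.2), ⟨u i, ?_⟩⟩, h1⟩
    rw [Finset.mem_filter]
    exact ⟨Finset.mem_univ _, h1⟩
  · rintro ⟨u, w⟩ _
    simp
  · rintro ⟨u, w⟩ _
    simp
  · rintro ⟨u, w⟩ _
    rfl

theorem plantH (H : Finset (Finset V)) (hH : ∀ h ∈ H, h.card = d + 1)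
    (p : Fin d → (Fin d → V) → Finset V → Prop)
    (hp : ∀ i u S T, S ⊆ T → p i u S → p i u T) :
    ∑ u ∈ Sh H d, (((Nb H u).card : ℚ) + 1) * E univ (Fail (Plant H p u)) ≤
      ∑ i, ∑ u ∈ Sh H d, (((Nb H u).card : ℚ) + 1) * E univ (Fail (p i u)) +
        ((Sh H d).card : ℚ) * ((Fintype.card V : ℚ) + 1) := by
  have harc : ∑ u ∈ Sh H d, ∑ w ∈ Nb H u,
        E univ (fun S => Fail (Plant H p u) (insert w S)) ≤
      ∑ i, ∑ u ∈ Sh H d, ∑ w ∈ Nb H u, E univ (fun S => Fail (p i u) (S.erase w)) := by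
    have h1 : ∑ i, ∑ u ∈ Sh H d, ∑ w ∈ Nb H u, E univ (fun S => Fail (p i u) (S.erase w)) =
        ∑ i, ∑ u ∈ Sh H d, ∑ w ∈ Nb H u,
          E univ (fun S => Fail (p i (Function.update u i w)) (S.erase (u i))) := by
      refine Finset.sum_congr rfl (fun i _ => ?_)
      exact (swap H hH i (fun u w => E univ (fun S => Fail (p i u) (S.erase w)))).symm
    rw [h1, Finset.sum_comm]
    refine Finset.sum_le_sum (fun u _ => ?_)
    rw [Finset.sum_comm]
    refine Finset.sum_le_sum (fun w hw => ?_)
    have h2 := glueF (univ : Finset V) d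
      (fun i S' => p i (Function.update u i w) (S'.erase (u i)))
    refine le_trans ?_ h2
    apply E_mono
    intro S _
    apply Fail_mono
    intro hh
    refine ⟨w, Finset.mem_insert_self _ _, ?_, compF_mono _ _ _ _ (Finset.subset_insert _ _) hh⟩
    simpa [Nb] using hw
  have hL : ∀ u ∈ Sh H d, (((Nb H u).card : ℚ) + 1) * E univ (Fail (Plant H p u)) -
      ((Fintype.card V : ℚ) + 1) ≤
      ∑ w ∈ Nb H u, E univ (fun S => Fail (Plant H p u) (insert w S)) := by
    intro u _
    have e1 := E_up (univ : Finset V) (Fail (Plant H p u))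
    have e2 : ∑ v ∈ Nb H u, (E univ (Fail (Plant H p u)) -
        E univ (fun S => Fail (Plant H p u) (insert v S))) ≤
        ∑ v ∈ (univ : Finset V), (E univ (Fail (Plant H p u)) -
          E univ (fun S => Fail (Plant H p u) (insert v S))) := by
      apply Finset.sum_le_sum_of_subset_of_nonneg (Finset.subset_univ _)
      intro x _ _
      have : E univ (fun S => Fail (Plant H p u) (insert x S)) ≤ E univ (Fail (Plant H p u)) := by
        apply E_mono
        intro S _
        apply Fail_mono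
        exact Plant_mono H p u S _ (Finset.subset_insert _ _)
      linarith
    rw [e1, Finset.sum_sub_distrib, Finset.sum_const, nsmul_eq_mul, Finset.card_univ] at e2
    have e3 := Fail_le_one (Plant H p u) ∅
    have e4 : (0:ℚ) ≤ (Fintype.card V : ℚ) + 1 := by positivity
    nlinarith
  have hR : ∀ i, ∀ u ∈ Sh H d, ∑ w ∈ Nb H u, E univ (fun S => Fail (p i u) (S.erase w)) ≤
      (((Nb H u).card : ℚ) + 1) * E univ (Fail (p i u)) := by
    intro i u _
    have e1 := E_down (univ : Finset V) (Fail (p i u))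
    have e2 : ∑ w ∈ Nb H u, (E univ (fun S => Fail (p i u) (S.erase w)) -
        E univ (Fail (p i u))) ≤
        ∑ w ∈ (univ : Finset V), (E univ (fun S => Fail (p i u) (S.erase w)) -
        E univ (Fail (p i u))) := by
      apply Finset.sum_le_sum_of_subset_of_nonneg (Finset.subset_univ _)
      intro x _ _
      have : E univ (Fail (p i u)) ≤ E univ (fun S => Fail (p i u) (S.erase x)) := by
        apply E_mono
        intro S _
        apply Fail_mono
        exact hp i u _ _ (Finset.erase_subset _ _)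
      linarith
    rw [e1, Finset.sum_sub_distrib, Finset.sum_const, nsmul_eq_mul, Finset.card_univ] at e2
    have e3 := Fail_nonneg (p i u) univ
    have e4 : (0:ℚ) ≤ (Fintype.card V : ℚ) + 1 := by positivity
    nlinarith [mul_nonneg e4 e3]
  have s1 := Finset.sum_le_sum hL
  have s2 : ∑ i, ∑ u ∈ Sh H d, ∑ w ∈ Nb H u, E univ (fun S => Fail (p i u) (S.erase w)) ≤
      ∑ i, ∑ u ∈ Sh H d, (((Nb H u).card : ℚ) + 1) * E univ (Fail (p i u)) :=
    Finset.sum_le_sum (fun i _ => Finset.sum_le_sum (hR i))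
  rw [Finset.sum_sub_distrib, Finset.sum_const, nsmul_eq_mul] at s1
  linarith

theorem cost {W : Type*} (H : Finset (Finset V)) (hH : ∀ h ∈ H, h.card = d + 1) (t : HT W d) :
    ∑ u ∈ Sh H d, (((Nb H u).card : ℚ) + 1) * E univ (Fail (t.Emb H u)) ≤
      (t.size : ℚ) * (((Sh H d).card : ℚ) * ((Fintype.card V : ℚ) + 1)) := by
  induction t with
  | node a =>
    have : ∀ u, E univ (Fail ((HT.node a : HT W d).Emb H u)) = 0 := by
      intro u
      simp [E, Fail, HT.Emb]
    simp [this, HT.size]
  | graft v C B ihC ihB =>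
    have h1 := plantH H hH (fun i => (C i).Emb H) (fun i u S T => Emb_mono H (C i) u S T)
    have h2 : ∑ u ∈ Sh H d, (((Nb H u).card : ℚ) + 1) *
          E univ (Fail ((HT.graft v C B).Emb H u)) ≤
        ∑ u ∈ Sh H d, (((Nb H u).card : ℚ) + 1) *
          E univ (Fail (Plant H (fun i => (C i).Emb H) u)) +
        ∑ u ∈ Sh H d, (((Nb H u).card : ℚ) + 1) * E univ (Fail (B.Emb H u)) := by
      rw [← Finset.sum_add_distrib]
      apply Finset.sum_le_sum
      intro u _
      rw [← mul_add]
      apply mul_le_mul_of_nonneg_left _ (by positivity)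
      exact glue univ _ _
    have h3 : ((HT.graft v C B).size : ℚ) = (∑ i, ((C i).size : ℚ)) + B.size + 1 := by
      simp [HT.size]
    have h4 : ∑ i, ∑ u ∈ Sh H d, (((Nb H u).card : ℚ) + 1) *
          E univ (Fail ((C i).Emb H u)) ≤
        (∑ i, ((C i).size : ℚ)) * (((Sh H d).card : ℚ) * ((Fintype.card V : ℚ) + 1)) := by
      rw [Finset.sum_mul]
      exact Finset.sum_le_sum (fun i _ => ihC i)
    rw [h3]
    linarith

/-- If the tree embeds nowhere, the degree sum is small. -/
theorem degree_bound {W : Type*} (H : Finset (Finset V)) (hH : ∀ h ∈ H, h.card = d + 1)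
    (t : HT W d) (hno : ∀ u, Function.Injective u → ¬ t.Emb H u univ) :
    ∑ u ∈ Sh H d, (Nb H u).card + (Sh H d).card ≤ t.size * (Sh H d).card := by
  have hall : ∀ u ∈ Sh H d, E univ (Fail (t.Emb H u)) = (Fintype.card V : ℚ) + 1 := by
    intro u hu
    have : Fail (t.Emb H u) = fun _ => 1 := by
      funext S
      have : ¬ t.Emb H u S := fun hh =>
        hno u ((mem_Sh H u).1 hu).1 (Emb_mono H t u S univ (Finset.subset_univ _) hh)
      simp [Fail, this]
    rw [this, E_one, Finset.card_univ]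
  have hc := cost H hH t
  rw [Finset.sum_congr rfl (fun u hu => by rw [hall u hu]), ← Finset.sum_mul,
    Finset.sum_add_distrib] at hc
  simp only [Finset.sum_const, nsmul_eq_mul, mul_one] at hc
  have hn : (0:ℚ) < (Fintype.card V : ℚ) + 1 := by positivity
  rw [← mul_assoc] at hc
  have hc2 := le_of_mul_le_mul_right hc hn
  exact_mod_cast hc2

end ineq

section count

variable {V : Type*} [DecidableEq V] [Fintype V] {d : ℕ}

theorem sum_Sh (H : Finset (Finset V)) :
    ∑ u ∈ Sh H d, (Nb H u).card = ∑ u ∈ inj V d, (Nb H u).card := by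
  classical
  apply Finset.sum_subset
  · intro u hu
    exact (mem_inj u).2 ((mem_Sh H u).1 hu).1
  · intro u hu hn
    rw [Finset.card_eq_zero, ← Finset.not_nonempty_iff_eq_empty]
    intro h
    exact hn ((mem_Sh H u).2 ⟨(mem_inj u).1 hu, h⟩)

theorem card_Sh_le (H : Finset (Finset V)) (hH : ∀ h ∈ H, h.card = d + 1) :
    (Sh H d).card ≤ d.factorial * (∂ H).card := by
  classical
  have hmap : ∀ u ∈ Sh H d, univ.image u ∈ ∂ H := by
    intro u hu
    obtain ⟨-, w, hw⟩ := (mem_Sh H u).1 hu
    simp only [Nb, Finset.mem_filter, Finset.mem_univ, true_and] at hw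
    rw [Finset.mem_shadow_iff]
    refine ⟨_, hw, w, Finset.mem_insert_self _ _, ?_⟩
    rw [Finset.erase_insert]
    intro h
    obtain ⟨j, _, hj⟩ := Finset.mem_image.1 h
    exact not_mem_image H hH u w hw j hj
  rw [Finset.card_eq_sum_card_fiberwise hmap, mul_comm, ← smul_eq_mul, ← Finset.sum_const]
  apply Finset.sum_le_sum
  intro s _
  by_cases hs : s.card = d
  · have h1 : Fintype.card (Fin d ↪ {x // x ∈ s}) = d.factorial := by
      rw [Fintype.card_embedding_eq, Fintype.card_fin, Fintype.card_coe, hs,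
        Nat.descFactorial_self]
    rw [← h1, ← Finset.card_univ]
    apply Finset.card_le_card_of_surjOn
      (fun (f : Fin d ↪ {x // x ∈ s}) => (fun i => (f i).val))
    intro u hu
    rw [Finset.mem_coe, Finset.mem_filter] at hu
    obtain ⟨hu1, hu2⟩ := hu
    have hmem : ∀ i, u i ∈ s := fun i => hu2 ▸ Finset.mem_image_of_mem u (Finset.mem_univ i)
    refine ⟨⟨fun i => ⟨u i, hmem i⟩, ?_⟩, by simp, rfl⟩
    intro a b hab
    exact ((mem_Sh H u).1 hu1).1 (congrArg Subtype.val hab)
  · have : (Sh H d).filter (fun u => univ.image u = s) = ∅ := by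
      rw [Finset.eq_empty_iff_forall_notMem]
      intro u hu
      rw [Finset.mem_filter] at hu
      apply hs
      rw [← hu.2, Finset.card_image_of_injective _ ((mem_Sh H u).1 hu.1).1, Finset.card_univ,
        Fintype.card_fin]
    rw [this]
    simp

/-- the shadow form of Kalai's bound for rooted trees. -/
theorem bound_HT {W : Type*} [DecidableEq W] [Nonempty V]
    (H : Finset (Finset V)) (hH : ∀ h ∈ H, h.card = d + 1)
    (T : HT W d) (hT : T.Good) (hri : Function.Injective T.root)
    (hno : ¬ ∃ f : W → V, Set.InjOn f ((T.nv ∪ univ.image T.root : Finset W) : Set W) ∧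
      ∀ e ∈ T.edges, e.image f ∈ H) :
    H.card * (d + 1) ≤ (T.size - 1) * (∂ H).card := by
  classical
  have hno' : ∀ u, Function.Injective u → ¬ T.Emb H u univ := by
    intro u hu hE
    obtain ⟨f, f1, f2, f3, f4⟩ := HT.extract H hH T hT hri u univ hE
    apply hno
    refine ⟨f, ?_, f4⟩
    intro x hx y hy hxy
    rw [Finset.mem_coe, Finset.mem_union] at hx hy
    rcases hx with hx | hx
    · rcases hy with hy | hy
      · exact f2 (by exact_mod_cast hx) (by exact_mod_cast hy) hxy
      · obtain ⟨j, _, hj⟩ := Finset.mem_image.1 hy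
        rw [← hj, f1] at hxy
        exact absurd (Finset.mem_image.2 ⟨j, Finset.mem_univ _, hxy.symm⟩) (f3 x hx).2
    · obtain ⟨i, _, hi⟩ := Finset.mem_image.1 hx
      rcases hy with hy | hy
      · rw [← hi, f1] at hxy
        exact absurd (Finset.mem_image.2 ⟨i, Finset.mem_univ _, hxy⟩) (f3 y hy).2
      · obtain ⟨j, _, hj⟩ := Finset.mem_image.1 hy
        rw [← hi, ← hj, f1, f1] at hxy
        rw [← hi, ← hj, hu hxy]
  have h1 := degree_bound H hH T hno'
  have h2 := sum_nb_ge H hH
  rw [← sum_Sh H] at h2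
  have h3 := card_Sh_le H hH
  have h4 : H.card * (d + 1).factorial ≤ (T.size - 1) * (Sh H d).card := by
    rw [Nat.sub_mul, one_mul]
    omega
  have h5 : H.card * (d + 1) * d.factorial ≤ (T.size - 1) * (∂ H).card * d.factorial := by
    calc H.card * (d + 1) * d.factorial = H.card * (d + 1).factorial := by
          rw [Nat.factorial_succ]; ring
      _ ≤ (T.size - 1) * (Sh H d).card := h4
      _ ≤ (T.size - 1) * (d.factorial * (∂ H).card) := Nat.mul_le_mul_left _ h3
      _ = (T.size - 1) * (∂ H).card * d.factorial := by ring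
  exact Nat.le_of_mul_le_mul_right h5 (Nat.factorial_pos d)

/-- **Kalai's conjecture, shadow form.**  If `e 0, …, e (t - 1)` is a tight `(d+1)`-tree and `H`
is a `(d+1)`-uniform hypergraph with no copy of it, then `(d+1) |H| ≤ (t-1) |∂H|`. -/
theorem kalai_shadow {W : Type*} [DecidableEq W] (e : ℕ → Finset W) (t : ℕ) (ht : 1 ≤ t)
    (h0 : (e 0).card = d + 1)
    (hstep : ∀ i, 0 < i → i < t → ∃ j, j < i ∧ ∃ S : Finset W, S ⊆ e j ∧ S.card = d ∧
      ∃ v : W, v ∉ (Finset.range i).biUnion e ∧ e i = insert v S)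
    (H : Finset (Finset V)) (hH : ∀ h ∈ H, h.card = d + 1)
    (hno : ¬ ∃ f : W → V, Set.InjOn f (((Finset.range t).biUnion e : Finset W) : Set W) ∧
      ∀ i, i < t → (e i).image f ∈ H) :
    H.card * (d + 1) ≤ (t - 1) * (∂ H).card := by
  rcases isEmpty_or_nonempty V with hV | hV
  · have hHe : H = ∅ := by
      rw [Finset.eq_empty_iff_forall_notMem]
      intro h hh
      have h1 := hH h hh
      have h2 : h.card ≤ Fintype.card V := Finset.card_le_univ h
      rw [Fintype.card_eq_zero] at h2
      omega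
    rw [hHe]
    simp
  obtain ⟨T, t1, t2, t3, t4, t5⟩ := HT.exists_HT e t h0 hstep (t - 1) (by omega)
  have ht' : t - 1 + 1 = t := by omega
  rw [ht'] at t3 t4 t5
  rw [← t3]
  apply bound_HT H hH T t1 t2
  rw [t5, t4]
  rintro ⟨f, f1, f2⟩
  apply hno
  refine ⟨f, f1, ?_⟩
  intro i hi
  exact f2 _ (Finset.mem_image_of_mem _ (Finset.mem_range.2 hi))

end count

end Pool.Agent.Y825.KS
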